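import Mathlib

set_option autoImplicit false

namespace Pool.Agent.Results.MP_71efc4_nt.Counter

open Finset

variable {G : Type} [AddCommGroup G]

/-- All subset sums. -/
def Sig (A : Finset G) : Set G := {g | ∃ B ⊆ A, ∑ b ∈ B, b = g}

/-- All nonempty subset sums. -/
def SigStar (A : Finset G) : Set G := {g | ∃ B ⊆ A, B.Nonempty ∧ ∑ b ∈ B, b = g}

variable (G)

/-- The number `c₀(G)`. -/
noncomputable def c0 : ℕ := sInf {m | ∀ A : Finset G, 0 ∉ A → m ≤ A.card → Sig A = Set.univ}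

/-- The critical number `c(G)`. -/
noncomputable def c : ℕ := sInf {m | ∀ A : Finset G, 0 ∉ A → m ≤ A.card → SigStar A = Set.univ}

variable {G}

/-- P2-sets. -/
def P2 (A : Finset G) : Prop := 0 ∉ A ∧ A.card = c0 G - 1 ∧ Sig A ≠ Set.univ

/-- P4-sets. -/
def P4 (A : Finset G) : Prop := 0 ∉ A ∧ A.card = c G - 1 ∧ SigStar A ≠ Set.univ

/-- A P4-set in the cyclic group of order ten that is not a P2-set. -/
theorem result : ∃ A : Finset (ZMod 10), P4 A ∧ ¬P2 A := by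
  have a : ∀ B ∈ ({1, 3, 4, 8} : Finset (ZMod 10)).powerset, ∑ b ∈ B, b = 0 → B = ∅ := by
    decide +kernel
  have b : ∀ g, ∃ B ∈ ({1, 3, 4, 8} : Finset (ZMod 10)).powerset, ∑ b ∈ B, b = g := by
    decide +kernel
  have d : ∀ A ∈ powersetCard 5 ({0}ᶜ : Finset (ZMod 10)), ∀ g, ∃ B ∈ A.powerset,
      B ≠ ∅ ∧ ∑ b ∈ B, b = g := by decide +kernel
  have e : SigStar ({1, 3, 4, 8} : Finset (ZMod 10)) ≠ Set.univ := fun h =>
    let ⟨B, h1, h2, h3⟩ := h.ge (Set.mem_univ 0); h2.ne_empty (a B (mem_powerset.2 h1) h3)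
  have f : 5 ∈ {m | ∀ A : Finset (ZMod 10), 0 ∉ A → m ≤ A.card → SigStar A = Set.univ} :=
    fun A h k => Set.eq_univ_of_forall fun g => by
      obtain ⟨C, c1, c2⟩ := exists_subset_card_eq k
      obtain ⟨B, b1, b2, b3⟩ := d C (mem_powersetCard.2 ⟨fun x hx => by
        simpa using fun n : x = 0 => h (n ▸ c1 hx), c2⟩) g
      exact ⟨B, (mem_powerset.1 b1).trans c1, nonempty_iff_ne_empty.2 b2, b3⟩
  have g : c (ZMod 10) = 5 := le_antisymm (Nat.sInf_le f) (le_csInf ⟨5, f⟩ fun m hm =>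
    not_lt.1 fun n => e (hm _ (by decide) (Nat.lt_succ_iff.1 n)))
  exact ⟨{1, 3, 4, 8}, ⟨by decide, by rw [g]; decide, e⟩, fun h => h.2.2
    (Set.eq_univ_of_forall fun g => let ⟨B, h1, h2⟩ := b g; ⟨B, mem_powerset.1 h1, h2⟩)⟩

end Pool.Agent.Results.MP_71efc4_nt.Counter
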